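import Pool.Agent.H296R3.Full

set_option autoImplicit false

open MeasureTheory
open scoped ContDiff

namespace Pool.Agent.Results.MP_5b99fd_an.ExactConstant

/-- Admissible functions on `ℝⁿ`: nonzero real `u ∈ C_c^∞(ℝⁿ)`, with the extra constraint
`∫ (1+|x|²)^{α-1} u dx = 0` when `α < -(n-2)/2`. -/
def Admissible (n : ℕ) (α : ℝ) : Set (EuclideanSpace ℝ (Fin n) → ℝ) :=
  {u | ContDiff ℝ ∞ u ∧ HasCompactSupport u ∧ u ≠ 0 ∧
    (α < -(((n : ℝ) - 2) / 2) → ∫ x, (1 + ‖x‖ ^ 2) ^ (α - 1) * u x = 0)}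

/-- The quotient `∫ (1+|x|²)^α |∇u|² dx / ∫ (1+|x|²)^{α-1} u² dx`. -/
noncomputable def quotient (n : ℕ) (α : ℝ) (u : EuclideanSpace ℝ (Fin n) → ℝ) : ℝ :=
  (∫ x, (1 + ‖x‖ ^ 2) ^ α * ‖gradient u x‖ ^ 2) / (∫ x, (1 + ‖x‖ ^ 2) ^ (α - 1) * u x ^ 2)

/-- The best constant `C(α,n)`, the infimum of the quotient over the admissible functions. -/
noncomputable def bestConst (n : ℕ) (α : ℝ) : ℝ := sInf (quotient n α '' Admissible n α)

/-- The formula: for `α > -(n-2)/2` it is `(n+2α-2)²/4` if `α ≤ 1+n/2` and `2n(α-1)` if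
`α > 1+n/2`; for `α < -(n-2)/2` it is `-2α` if `α ≤ -n`, `-4α-2n` if `-n < α < -(n+2)/2` and
`(n+2α-2)²/4` if `-(n+2)/2 ≤ α`. -/
noncomputable def value (n : ℕ) (α : ℝ) : ℝ :=
  if -(((n : ℝ) - 2) / 2) < α then
    (if α ≤ 1 + (n : ℝ) / 2 then ((n : ℝ) + 2 * α - 2) ^ 2 / 4 else 2 * n * (α - 1))
  else if α ≤ -(n : ℝ) then -2 * α
  else if α < -(((n : ℝ) + 2) / 2) then -4 * α - 2 * n
  else ((n : ℝ) + 2 * α - 2) ^ 2 / 4

/-- For every `n ≥ 2` and every real `α ≠ -(n-2)/2` the best constant is `value n α`, and it is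
a true infimum over a nonempty set. -/
theorem result (n : ℕ) (hn : 2 ≤ n) (α : ℝ) (hα : α ≠ -(((n : ℝ) - 2) / 2)) :
    (Admissible n α).Nonempty ∧
    IsGLB (quotient n α '' Admissible n α) (value n α) ∧
    bestConst n α = value n α := by
  have h0 : (Admissible n α).Nonempty :=
    PoolH296.WHardy.admissible_nonempty (by omega) α
  have h1 : IsGLB (quotient n α '' Admissible n α) (value n α) :=
    PoolH296.WHardy.isGLB_value hn hα
  exact ⟨h0, h1, h1.csInf_eq (h0.image _)⟩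

end Pool.Agent.Results.MP_5b99fd_an.ExactConstant
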